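import Pool.Agent.Helper84.OB.Stmts

/-!
# Row CI: a circuit of `M / K` through `e` that spans `X`
-/

set_option autoImplicit false

universe u

open Set Pool.Agent.Helper84.BT Pool.Agent.Helper84.OB
open scoped Matroid

namespace Pool.Agent.Helper12.OB

theorem st_CI : ST_CI.{u} := by
  intro α _ M X K e hX hK hKX heX heK hmax
  have hXE : X ⊆ M.E := hX.subset_ground
  let S : Set (Set α) := {C | C ⊆ X \ K ∧ e ∈ C ∧ e ∈ M.closure ((C \ {e}) ∪ K)}
  have hSne : S.Nonempty := by
    refine ⟨X \ K, subset_rfl, ⟨heX, heK⟩, ?_⟩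
    refine M.closure_subset_closure ?_ (isCyclic_iff.1 hX.isCyclic e heX)
    intro y hy
    by_cases hyK : y ∈ K
    · exact Or.inr hyK
    · exact Or.inl ⟨⟨hy.1, hyK⟩, hy.2⟩
  obtain ⟨C, hC, hmin⟩ := Set.exists_min_image S Set.ncard (Set.toFinite S) hSne
  obtain ⟨hCX, heC, hecl⟩ := hC
  have hCX' : C ⊆ X := fun x hx => (hCX hx).1
  have hdisj : Disjoint C K := by
    rw [Set.disjoint_left]
    intro x hx
    exact (hCX hx).2
  have hnot : ∀ x ∈ C, x ≠ e → e ∉ M.closure (((C \ {x}) \ {e}) ∪ K) := by
    intro x hx hxe h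
    have h1 := hmin (C \ {x}) ⟨fun y hy => hCX hy.1, ⟨heC, fun h => hxe h.symm⟩, h⟩
    have h2 := Set.ncard_sdiff_singleton_add_one hx
    omega
  have hins : ∀ x, (C \ {e}) ∪ K ⊆ insert x (((C \ {x}) \ {e}) ∪ K) := by
    intro x y hy
    rcases hy with hy | hy
    · by_cases hyx : y = x
      · exact Or.inl hyx
      · exact Or.inr (Or.inl ⟨⟨hy.1, hyx⟩, hy.2⟩)
    · exact Or.inr (Or.inr hy)
  have hdep : ∀ x ∈ C, x ∈ M.closure ((C \ {x}) ∪ K) := by
    intro x hx
    by_cases hxe : x = e
    · rw [hxe]
      exact hecl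
    · have h1 := hnot x hx hxe
      have h2 : e ∈ M.closure (insert x (((C \ {x}) \ {e}) ∪ K)) :=
        M.closure_subset_closure (hins x) hecl
      have h3 := (Matroid.closure_exchange ⟨h2, h1⟩).1
      refine M.closure_subset_closure ?_ h3
      intro y hy
      rcases hy with hy | hy | hy
      · rw [hy]
        exact Or.inl ⟨heC, fun h => hxe h.symm⟩
      · exact Or.inl hy.1
      · exact Or.inr hy
  have hCKE : C ∪ K ⊆ M.E := union_subset (hCX'.trans hXE) (hKX.trans hXE)
  have hsub := M.subset_closure (C ∪ K) hCKE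
  have hF : M.closure (C ∪ K) = X := by
    apply hmax
    · refine ⟨M.isFlat_closure _, fun x hx => hsub (Or.inr hx), ?_⟩
      intro x hx
      by_cases hxC : x ∈ C
      · refine M.closure_subset_closure ?_ (hdep x hxC)
        intro y hy
        rcases hy with hy | hy
        · exact ⟨hsub (Or.inl hy.1), hy.2⟩
        · refine ⟨hsub (Or.inr hy), fun h => hx.2 ?_⟩
          rw [mem_singleton_iff] at h
          rw [← h]
          exact hy
      · refine M.closure_subset_closure ?_ hx.1
        intro y hy
        refine ⟨hsub hy, fun h => ?_⟩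
        rw [mem_singleton_iff] at h
        rw [h] at hy
        rcases hy with hy | hy
        · exact hxC hy
        · exact hx.2 hy
    · have h1 := M.closure_subset_closure (union_subset hCX' hKX)
      rwa [hX.1.closure] at h1
    · exact hsub (Or.inl heC)
  have hrk : rk M (C ∪ K) = rk M X := by
    rw [← rk_closure, hF]
  have hdel : ∀ c ∈ C, rk M ((C \ {c}) ∪ K) = rk M X := by
    intro c hc
    have h1 := hdep c hc
    rw [mem_closure_iff_rk M (hXE (hCX' hc)), ← insert_union, insert_sdiff_singleton,
      insert_eq_of_mem hc] at h1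
    rw [← h1, hrk]
  have key : ∀ n : ℕ, ∀ D ⊆ C \ {e}, D.ncard = n → rk M (D ∪ K) = rk M K + n := by
    intro n
    induction n with
    | zero =>
      intro D _ hD
      rw [Set.ncard_eq_zero (Set.toFinite D)] at hD
      rw [hD, empty_union, add_zero]
    | succ n ih =>
      intro D hDC hD
      have hne : D.Nonempty := by
        rw [← Set.ncard_pos (Set.toFinite D)]
        omega
      obtain ⟨x, hx⟩ := hne
      have h1 := Set.ncard_sdiff_singleton_add_one hx
      have h2 := ih (D \ {x}) (fun y hy => hDC hy.1) (by omega)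
      have hxC : x ∈ C := (hDC hx).1
      have hxe : x ≠ e := fun h => (hDC hx).2 h
      have h3 : x ∉ M.closure ((D \ {x}) ∪ K) := by
        intro h
        have h4 : x ∈ M.closure (((C \ {x}) \ {e}) ∪ K) := by
          refine M.closure_subset_closure ?_ h
          intro y hy
          rcases hy with hy | hy
          · exact Or.inl ⟨⟨(hDC hy.1).1, hy.2⟩, (hDC hy.1).2⟩
          · exact Or.inr hy
        have h5 : e ∈ M.closure (insert x (((C \ {x}) \ {e}) ∪ K)) :=
          M.closure_subset_closure (hins x) hecl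
        rw [Matroid.closure_insert_eq_of_mem_closure h4] at h5
        exact hnot x hxC hxe h5
      have h6 := rk_insert_of_notMem M (hXE (hCX' hxC)) h3
      rw [← insert_union, insert_sdiff_singleton, insert_eq_of_mem hx] at h6
      omega
  refine ⟨C, hCX', hdisj, hrk, ?_, hdel⟩
  have h1 := key (C \ {e}).ncard (C \ {e}) subset_rfl rfl
  have h2 := hdel e heC
  have h3 := Set.ncard_sdiff_singleton_add_one heC
  omega

end Pool.Agent.Helper12.OB
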